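import Pool.Agent.Q255.L2.Almz
import Pool.Agent.Q241.L2.Kode
import Pool.Agent.Q261.L2.Kint
import Pool.Agent.Q241.L2.Kbb
import Pool.Agent.Q176.L2.KW
import Pool.Agent.Q150.L2.KNB
import Pool.Agent.Q151.L2.HY
import Pool.Agent.Q182.L2.QE
import Pool.Agent.Q275.L2.Snq

/-!
# The sup norm of the quadratic twists of all Hecke-Maass forms

Let `(T_i, a_i)` be any family of numbers `T_i ≥ 1` and sequences of real coefficients, at most `A X^A` members with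
`T_i ≤ X`, with `∑_{n ≤ N} a_i(n)^8 ≤ C (N T_i)^ε N` and
`∑_{s ≤ S squarefree} ∑_{r ≤ R} a_i(r² s)^4 ≤ C (R S T_i)^ε R S` for every `ε > 0` (both are known for all Hecke-Maass forms of
`SL₂(ℤ)`). For a compact subset `Ω` of the upper half plane and `ε > 0`, for all but few primes `p ≤ P` the expansions
`e^{πT/2} √y ∑ a_i(n) (n/p) K_{iT}(2πny) cos(2πnx)` and the same with `sin`, `T = T_i`, are `O(T_i^ε)` on `Ω`, uniformly for
all members of the family with `Z ≤ T_i ≤ P^(1/K)/2`; at most `C P Z^(-B)` primes are excluded.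
-/

set_option autoImplicit false

namespace Pool.Agent.Results.MP_8fded1_nt.QuadraticTwists

open Finset Filter Topology MeasureTheory

/-- the Bessel function `K_{iT}(u) = ∫_0^∞ exp(-u cosh t) cos(T t) dt` -/
noncomputable def K (T u : ℝ) : ℝ :=
  ∫ t in Set.Ioi (0 : ℝ), Real.exp (-(u * Real.cosh t)) * Real.cos (T * t)

/-- the quadratic symbol `(n / p)` -/
noncomputable def chi (p n : ℕ) : ℝ := (jacobiSym (n : ℤ) p : ℝ)

/-- `e^{πT/2} √y ∑_{n ≥ 1} a(n) g(n) K_{iT}(2πny) cos(2πnx)`, `z = x + i y` -/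
noncomputable def evenPart (T : ℝ) (a g : ℕ → ℝ) (z : ℂ) : ℝ :=
  Real.exp (Real.pi * T / 2) * √z.im * ∑' n : ℕ, a (n + 1) * g (n + 1) *
    K T (2 * Real.pi * (n + 1) * z.im) * Real.cos (2 * Real.pi * (n + 1) * z.re)

/-- `e^{πT/2} √y ∑_{n ≥ 1} a(n) g(n) K_{iT}(2πny) sin(2πnx)`, `z = x + i y` -/
noncomputable def oddPart (T : ℝ) (a g : ℕ → ℝ) (z : ℂ) : ℝ :=
  Real.exp (Real.pi * T / 2) * √z.im * ∑' n : ℕ, a (n + 1) * g (n + 1) *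
    K T (2 * Real.pi * (n + 1) * z.im) * Real.sin (2 * Real.pi * (n + 1) * z.re)

theorem kbb : Pool.Agent.Q255.L2.S_KBB := Pool.Agent.Q241.L2.kbb Pool.Agent.Q241.L2.kode Pool.Agent.Q261.L2.t_KINT

theorem sn : Pool.Agent.Q255.L2.S_SNQ :=
  Pool.Agent.Q275.L2.snq (Pool.Agent.Q182.L2.qe Pool.Agent.Q151.L2.hy) Pool.Agent.Q241.L2.kode kbb
    (Pool.Agent.Q176.L2.KW.kw Pool.Agent.Q241.L2.kode Pool.Agent.Q261.L2.t_KINT kbb) Pool.Agent.Q150.L2.KNB.kn2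

/-- the power of two above `t` -/
theorem pow_above {t : ℝ} (ht : 1 ≤ t) : ∃ J : ℕ, t ≤ 2 ^ J ∧ (2 : ℝ) ^ J ≤ 2 * t := by
  obtain ⟨n, h1, h2⟩ := exists_nat_pow_near ht (by norm_num : (1 : ℝ) < 2)
  refine ⟨n + 1, h2.le, ?_⟩
  rw [pow_succ]
  linarith

/-- **The sup norm of the quadratic twists of all Hecke-Maass forms.**

For every family of polynomial size with coefficients bounded in the mean (of order `8`, and of order `4` along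
`r² s`), every compact subset `Ω` of the upper half plane and every `ε > 0` there is `A₀` such that for every `B ≥ 0` there
are `K`, `C` such that for all `P` and `Z ≥ 1`: for all but at most `C P Z^(-B)` of the odd primes `p ≤ P` the twists by `(n/p)` of
the expansions of all members with `Z ≤ T_i`, `(2 T_i)^K ≤ P` are at most `A₀ T_i^ε` on `Ω`. -/
theorem result :
    ∀ (ι : Type) (T : ι → ℝ) (a : ι → ℕ → ℝ) (A : ℝ), (∀ i, 1 ≤ T i) →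
      (∀ X : ℝ, 1 ≤ X → {i | T i ≤ X}.Finite ∧ ({i | T i ≤ X}.ncard : ℝ) ≤ A * X ^ A) →
      (∀ ε : ℝ, 0 < ε → ∃ C : ℝ, ∀ (i : ι) (N : ℕ), 1 ≤ N →
        ∑ n ∈ Icc 1 N, a i n ^ 8 ≤ C * ((N : ℝ) * T i) ^ ε * N) →
      (∀ ε : ℝ, 0 < ε → ∃ C : ℝ, ∀ (i : ι) (R S : ℕ), 1 ≤ R → 1 ≤ S →
        ∑ s ∈ (Icc 1 S).filter Squarefree, ∑ r ∈ Icc 1 R, a i (r ^ 2 * s) ^ 4 ≤
          C * ((R : ℝ) * S * T i) ^ ε * (R * S)) →
      ∀ Ω : Set ℂ, IsCompact Ω → (∀ z ∈ Ω, 0 < z.im) → ∀ ε : ℝ, 0 < ε →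
        ∃ A₀ : ℝ, ∀ B : ℝ, 0 ≤ B → ∃ (K₀ : ℕ) (C : ℝ), ∀ (P : ℕ) (Z : ℝ), 1 ≤ Z →
          ({p : ℕ | p ≤ P ∧ p.Prime ∧ p ≠ 2 ∧ ∃ i, Z ≤ T i ∧ (2 * T i) ^ K₀ ≤ P ∧ ∃ z ∈ Ω,
            A₀ * T i ^ ε < |evenPart (T i) (a i) (chi p) z| ∨
            A₀ * T i ^ ε < |oddPart (T i) (a i) (chi p) z|}.ncard : ℝ) ≤ C * P * Z ^ (-B) := by
  intro ι T a A hT hfin h8 h4 Ω hΩ hpos ε hε
  classical
  rcases Ω.eq_empty_or_nonempty with h0 | h0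
  · subst h0
    refine ⟨0, fun B _ => ⟨0, 0, fun P Z _ => ?_⟩⟩
    rw [Set.ncard_eq_zero (Set.finite_le_nat P |>.subset fun p hp => hp.1) |>.2]
    · simp
    · rw [Set.eq_empty_iff_forall_notMem]
      rintro p ⟨-, -, -, i, -, -, z, hz, -⟩
      exact absurd hz (Set.notMem_empty z)
  obtain ⟨z₀, hz₀, h1⟩ := hΩ.exists_isMinOn h0 Complex.continuous_im.continuousOn
  obtain ⟨z₁, hz₁, h2⟩ := hΩ.exists_isMaxOn h0 Complex.continuous_im.continuousOn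
  have h01 : z₀.im ≤ z₁.im := h1 hz₁
  obtain ⟨A₀, hA⟩ := sn ι T a A ⟨hT, hfin⟩ ⟨h8, h4⟩ z₀.im z₁.im ε 1 (hpos z₀ hz₀) h01 hε
  refine ⟨A₀, fun B hB => ?_⟩
  obtain ⟨K₀, C, hC0, hC⟩ := Pool.Agent.Q255.L2.almz (r := 0) (hA.mono fun J m h _ => h) hB
  refine ⟨K₀, C, fun P Z hZ => ?_⟩
  set S : Set ℕ := {p : ℕ | p ≤ P ∧ p.Prime ∧ p ≠ 2 ∧ ∃ i, Z ≤ T i ∧ (2 * T i) ^ K₀ ≤ P ∧ ∃ z ∈ Ω,
            A₀ * T i ^ ε < |evenPart (T i) (a i) (chi p) z| ∨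
            A₀ * T i ^ ε < |oddPart (T i) (a i) (chi p) z|} with hS
  have hfinS : S.Finite := (Set.finite_le_nat P).subset fun p hp => hp.1
  rw [Set.ncard_eq_toFinset_card S hfinS]
  refine hC P Z _ hZ fun p hp => ?_
  rw [Set.Finite.mem_toFinset] at hp
  obtain ⟨hpP, hpp, -, i, hZi, hTi, z, hz, hbad⟩ := hp
  obtain ⟨J, hJ1, hJ2⟩ := pow_above (hT i)
  refine ⟨hpP, hpp, J, hZi.trans hJ1, ?_, fun hcon => ?_⟩
  · have h3 : ((2 : ℝ) ^ J) ^ K₀ ≤ (2 * T i) ^ K₀ := pow_le_pow_left₀ (by positivity) hJ2 K₀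
    rw [← pow_mul, mul_comm J K₀] at h3
    exact_mod_cast h3.trans hTi
  · have h3 := hcon i z.re z.im hJ1 (by rw [pow_one]; exact hJ2) (h1 hz) (h2 hz)
    rcases hbad with h | h
    · exact absurd h3.1 (not_le.2 h)
    · exact absurd h3.2 (not_le.2 h)

end Pool.Agent.Results.MP_8fded1_nt.QuadraticTwists
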