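import Pool.Agent.Q84.NX.Str
import Pool.Agent.Results.MP_8fded1_nt.QuadraticTwists

/-!
# The sup norm of the twists of Hecke-Maass forms by the primes of strings of consecutive primes

Let `(T_i, a_i)` be a family as in `QuadraticTwists` (for instance all normalised Hecke-Maass forms of `SL₂(ℤ)`), `Ω` a
compact subset of the upper half plane and `ε > 0`. There are `A₀`, `K₀` such that for all `η > 0`, `κ > 0` and `m` there is
`c' > 0` and for every `Z` a number `D` with the following property. For every large `X` there is a set `S` of at most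
`(log X) ^ (49 / 50)` primes, all larger than `Z`, such that for EVERY function `g` with values `1` and `-1` on the primes
at least `X ^ (1 - κ)` integers `n`, `X < n ≤ 3X`, satisfy: the interval `[n, n + D]` contains at least `m` primes, and for
every prime `p` in it

* the Legendre symbol `(p / q)` is `g q` for all odd primes `q ≤ c' log X` outside `S`;
* the twists by `(n / p)` of the expansions of ALL members with `p ^ η ≤ T_i` and `(2 T_i) ^ K₀ ≤ p` are at most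
  `A₀ T_i ^ ε` on `Ω`.

Method: `QuadraticTwists` (all but few primes), and the Maynard-Tao theorem relative to a modulus which is a small power of
`X`, in the form that it avoids arbitrary exceptional sets of size `X ^ (1 - η)` (`Q84/MB/E1-E4`).
-/

set_option autoImplicit false

open scoped Classical

namespace Pool.Agent.Results.MP_8fded1_nt.StringsOfPrimes

open Finset Filter Topology MeasureTheory
open Pool.Agent.Results.MP_8fded1_nt.QuadraticTwists (evenPart oddPart chi)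

/-- the twists by `(n / p)` of the members of the family with `p ^ η ≤ T_i` and `(2 T_i) ^ K₀ ≤ p` are at most `A₀ T_i ^ ε`
on `Ω` -/
def Fine {ι : Type} (T : ι → ℝ) (a : ι → ℕ → ℝ) (Ω : Set ℂ) (ε A₀ η : ℝ) (K₀ p : ℕ) : Prop :=
  ∀ i, (p : ℝ) ^ η ≤ T i → (2 * T i) ^ K₀ ≤ p → ∀ z ∈ Ω,
    |evenPart (T i) (a i) (chi p) z| ≤ A₀ * T i ^ ε ∧ |oddPart (T i) (a i) (chi p) z| ≤ A₀ * T i ^ ε

/-- **Theorem.** -/
theorem result :
    ∀ (ι : Type) (T : ι → ℝ) (a : ι → ℕ → ℝ) (A : ℝ), (∀ i, 1 ≤ T i) →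
      (∀ X : ℝ, 1 ≤ X → {i | T i ≤ X}.Finite ∧ ({i | T i ≤ X}.ncard : ℝ) ≤ A * X ^ A) →
      (∀ ε : ℝ, 0 < ε → ∃ C : ℝ, ∀ (i : ι) (N : ℕ), 1 ≤ N →
        ∑ n ∈ Icc 1 N, a i n ^ 8 ≤ C * ((N : ℝ) * T i) ^ ε * N) →
      (∀ ε : ℝ, 0 < ε → ∃ C : ℝ, ∀ (i : ι) (R S : ℕ), 1 ≤ R → 1 ≤ S →
        ∑ s ∈ (Icc 1 S).filter Squarefree, ∑ r ∈ Icc 1 R, a i (r ^ 2 * s) ^ 4 ≤
          C * ((R : ℝ) * S * T i) ^ ε * (R * S)) →
      ∀ Ω : Set ℂ, IsCompact Ω → (∀ z ∈ Ω, 0 < z.im) → ∀ ε : ℝ, 0 < ε →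
        ∃ (A₀ : ℝ) (K₀ : ℕ), ∀ η : ℝ, 0 < η → ∀ κ : ℝ, 0 < κ → ∀ m : ℕ, ∃ c' : ℝ, 0 < c' ∧
        ∀ Z : ℕ, ∃ D : ℕ, ∃ X₀ : ℝ, ∀ X : ℝ, X₀ ≤ X →
        ∃ S : Finset ℕ, (∀ q ∈ S, q.Prime ∧ Z < q) ∧ (S.card : ℝ) ≤ (Real.log X) ^ (49 / 50 : ℝ) ∧
        ∀ g : ℕ → ℤ, (∀ q, g q = 1 ∨ g q = -1) →
          X ^ (1 - κ) ≤ (((Icc 1 ⌊3 * X⌋₊).filter fun n : ℕ => X < n ∧
            m ≤ ((Icc n (n + D)).filter Nat.Prime).card ∧
            ∀ p ∈ Icc n (n + D), p.Prime → Fine T a Ω ε A₀ η K₀ p ∧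
              ∀ q : ℕ, q.Prime → q ≠ 2 → (q : ℝ) ≤ c' * Real.log X → q ∉ S → jacobiSym p q = g q).card : ℝ) := by
  intro ι T a A hT hfin h8 h4 Ω hΩ hpos ε hε
  obtain ⟨A₀, hA₀⟩ := QuadraticTwists.result ι T a A hT hfin h8 h4 Ω hΩ hpos ε hε
  obtain ⟨K₀, C, hC⟩ := hA₀ 1 zero_le_one
  refine ⟨A₀, K₀, fun η hη κ hκ m => ?_⟩
  have hbad : ∀ᶠ X : ℝ in atTop, (((Icc 1 ⌊4 * X⌋₊).filter fun p : ℕ => p.Prime ∧ X < p ∧
      ¬ Fine T a Ω ε A₀ η K₀ p).card : ℝ) ≤ X ^ (1 - η / 2) := by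
    filter_upwards [eventually_ge_atTop (2 : ℝ),
      (tendsto_rpow_atTop (by positivity : (0 : ℝ) < η / 2)).eventually_ge_atTop (|C| * 4)] with X hX2 hXC
    have hX0 : 0 < X := by linarith
    have hX1 : (1 : ℝ) ≤ X ^ η := Real.one_le_rpow (by linarith) hη.le
    have h1 := hC ⌊4 * X⌋₊ (X ^ η) hX1
    have hP : ((⌊4 * X⌋₊ : ℕ) : ℝ) ≤ 4 * X := Nat.floor_le (by positivity)
    obtain ⟨B, hB⟩ : ∃ B, B = {p : ℕ | p ≤ ⌊4 * X⌋₊ ∧ p.Prime ∧ p ≠ 2 ∧ ∃ i, X ^ η ≤ T i ∧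
      (2 * T i) ^ K₀ ≤ ((⌊4 * X⌋₊ : ℕ) : ℝ) ∧ ∃ z ∈ Ω, A₀ * T i ^ ε < |evenPart (T i) (a i) (chi p) z| ∨
        A₀ * T i ^ ε < |oddPart (T i) (a i) (chi p) z|} := ⟨_, rfl⟩
    rw [← hB] at h1
    have hfinB : B.Finite := by
      rw [hB]
      exact (Set.finite_le_nat ⌊4 * X⌋₊).subset fun p hp => hp.1
    have h2 : ((Icc 1 ⌊4 * X⌋₊).filter fun p : ℕ => p.Prime ∧ X < p ∧ ¬ Fine T a Ω ε A₀ η K₀ p).card ≤ B.ncard := by
      rw [← Set.ncard_coe_finset]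
      apply Set.ncard_le_ncard _ hfinB
      intro p hp
      rw [mem_coe, mem_filter, mem_Icc] at hp
      obtain ⟨⟨_, hp4⟩, hpp, hXp, hpf⟩ := hp
      rw [hB]
      unfold Fine at hpf
      push Not at hpf
      obtain ⟨i, hi1, hi2, z, hz, hi3⟩ := hpf
      refine ⟨hp4, hpp, ?_, i, (Real.rpow_le_rpow hX0.le hXp.le hη.le).trans hi1, hi2.trans (by exact_mod_cast hp4), z,
        hz, ?_⟩
      · rintro rfl
        push_cast at hXp
        linarith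
      · by_cases h3 : |evenPart (T i) (a i) (chi p) z| ≤ A₀ * T i ^ ε
        · exact Or.inr (hi3 h3)
        · exact Or.inl (not_le.1 h3)
    calc (((Icc 1 ⌊4 * X⌋₊).filter fun p : ℕ => p.Prime ∧ X < p ∧ ¬ Fine T a Ω ε A₀ η K₀ p).card : ℝ)
        ≤ (B.ncard : ℝ) := by exact_mod_cast h2
      _ ≤ C * ((⌊4 * X⌋₊ : ℕ) : ℝ) * (X ^ η) ^ (-(1 : ℝ)) := h1
      _ ≤ |C| * (4 * X) * (X ^ η) ^ (-(1 : ℝ)) := by
          apply mul_le_mul_of_nonneg_right _ (by positivity)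
          exact mul_le_mul (le_abs_self C) hP (Nat.cast_nonneg _) (abs_nonneg C)
      _ = (|C| * 4) * (X * X ^ (-η)) := by
          rw [← Real.rpow_mul hX0.le, mul_neg_one]
          ring
      _ ≤ X ^ (η / 2) * (X * X ^ (-η)) := mul_le_mul_of_nonneg_right hXC (by positivity)
      _ = X ^ (1 - η / 2) := by
          nth_rewrite 2 [← Real.rpow_one X]
          rw [← Real.rpow_add hX0, ← Real.rpow_add hX0]
          congr 1
          ring
  exact Pool.Agent.Q84.NX.strings_of _ (η / 2) (by positivity) hbad κ hκ m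

end Pool.Agent.Results.MP_8fded1_nt.StringsOfPrimes
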