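import Pool.Agent.Q255.L2.Eng
import Pool.Agent.Q241.L2.Kode
import Pool.Agent.Q261.L2.Kint
import Pool.Agent.Q241.L2.Kbb
import Pool.Agent.Q176.L2.KW
import Pool.Agent.Q150.L2.KNB
import Pool.Agent.Q68.L2.SN2

/-!
# The sup norm of random twists of all Hecke-Maass forms

Let `f` be completely multiplicative with the values `1`, `-1` at the primes. The signs at the primes may have any
joint law whatsoever with `I(x) ≤ x^{o(1)}`, where `I(x)` is the relative entropy (Kullback-Leibler divergence) of the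
law of the signs `f(p)`, `p ≤ x`, to independent fair signs. Let `(T_i, a_i)` be any family of numbers `T_i ≥ 1` and
sequences of real coefficients, at most `A X^A` members with `T_i ≤ X`, with `∑_{n ≤ N} a_i(n)^8 ≤ C (N T_i)^ε N` and
`∑_{s ≤ S squarefree} ∑_{r ≤ R} a_i(r² s)^4 ≤ C (R S T_i)^ε R S` for every `ε > 0` (both are known for all Hecke-Maass forms of
`SL₂(ℤ)`). Then almost surely, for every compact subset `Ω` of the upper half plane and every `ε > 0`, the expansions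
`e^{πT/2} √y ∑ a_i(n) f(n) K_{iT}(2πny) cos(2πnx)` and the same with `sin`, `T = T_i`, are `O(T_i^ε)` on `Ω`, uniformly for
all members of the family. The same holds after any change of `f` at finitely many primes.
-/

set_option autoImplicit false

namespace Pool.Agent.Results.MP_8fded1_nt.SupNormRandomTwistsSharp

open Finset Filter Topology MeasureTheory

/-- the sign at the prime with the number `k` (`2` has the number `0`) -/
def sign (ω : ℕ → Bool) (k : ℕ) : ℝ := if ω k then 1 else -1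

/-- `f(n) = ∏_p f(p)^{v_p(n)}`, the completely multiplicative function with the sign `ω k` at the prime with the
number `k` (`Nat.count Nat.Prime p` is the number of the primes less than `p`) -/
noncomputable def f (ω : ℕ → Bool) (n : ℕ) : ℝ :=
  n.factorization.prod fun p j => sign ω (Nat.count Nat.Prime p) ^ j

/-- `I(x)`: the relative entropy `∑_s q(s) log (2^n q(s))` of the law `q` of the signs at the `n = π(x)` primes
`p ≤ x` to independent fair signs, in nats -/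
noncomputable def information (ν : Measure (ℕ → Bool)) (x : ℕ) : ℝ :=
  ∑ s : Fin (Nat.primeCounting x) → Bool, ν.real {ω | ∀ k : Fin (Nat.primeCounting x), ω k = s k} *
    Real.log (2 ^ Nat.primeCounting x *
      ν.real {ω | ∀ k : Fin (Nat.primeCounting x), ω k = s k})

/-- `I(x) ≤ x^{o(1)}` -/
def SmallInformation (ν : Measure (ℕ → Bool)) : Prop :=
  ∀ ε : ℝ, 0 < ε → ∀ᶠ x : ℕ in atTop, information ν x ≤ (x : ℝ) ^ ε

/-- the Bessel function `K_{iT}(u) = ∫_0^∞ exp(-u cosh t) cos(T t) dt` -/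
noncomputable def K (T u : ℝ) : ℝ :=
  ∫ t in Set.Ioi (0 : ℝ), Real.exp (-(u * Real.cosh t)) * Real.cos (T * t)

/-- `e^{πT/2} √y ∑_{n ≥ 1} a(n) g(n) K_{iT}(2πny) cos(2πnx)`, `z = x + i y` -/
noncomputable def evenPart (T : ℝ) (a g : ℕ → ℝ) (z : ℂ) : ℝ :=
  Real.exp (Real.pi * T / 2) * √z.im * ∑' n : ℕ, a (n + 1) * g (n + 1) *
    K T (2 * Real.pi * (n + 1) * z.im) * Real.cos (2 * Real.pi * (n + 1) * z.re)

/-- `e^{πT/2} √y ∑_{n ≥ 1} a(n) g(n) K_{iT}(2πny) sin(2πnx)`, `z = x + i y` -/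
noncomputable def oddPart (T : ℝ) (a g : ℕ → ℝ) (z : ℂ) : ℝ :=
  Real.exp (Real.pi * T / 2) * √z.im * ∑' n : ℕ, a (n + 1) * g (n + 1) *
    K T (2 * Real.pi * (n + 1) * z.im) * Real.sin (2 * Real.pi * (n + 1) * z.re)

/-! ## Translation -/

open Pool.Agent.Q255.EP

theorem info_eq (ν : Measure (ℕ → Bool)) [IsProbabilityMeasure ν] (x : ℕ) :
    information ν x = Pool.Agent.Q255.IR.D ν (Nat.primeCounting x) := D_eq_sum ν _

theorem small_iff (ν : Measure (ℕ → Bool)) [IsProbabilityMeasure ν] :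
    SmallInformation ν ↔ ∀ ε : ℝ, 0 < ε → ∀ᶠ x : ℕ in atTop,
      Pool.Agent.Q255.IR.D ν (Nat.primeCounting x) ≤ (x : ℝ) ^ ε := by
  unfold SmallInformation
  simp only [info_eq]

theorem kbb : Pool.Agent.Q255.L2.S_KBB := Pool.Agent.Q241.L2.kbb Pool.Agent.Q241.L2.kode Pool.Agent.Q261.L2.t_KINT

theorem sn : Pool.Agent.Q255.L2.S_SN2 :=
  Pool.Agent.Q68.L2.sn2 Pool.Agent.Q255.L2.t_ENG2 Pool.Agent.Q241.L2.kode kbb
    (Pool.Agent.Q176.L2.KW.kw Pool.Agent.Q241.L2.kode Pool.Agent.Q261.L2.t_KINT kbb) Pool.Agent.Q150.L2.KNB.kn2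

/-- **The sup norm of random twists of all Hecke-Maass forms.**

For every law of small information and every family of polynomial size with coefficients bounded in the mean (of order
`8`, and of order `4` along `r² s`): almost surely, for every `f'` equal to `f` at all but finitely many primes, every
compact subset `Ω` of the upper half plane and every `ε > 0`, the twisted expansions are `O(T^ε)` on `Ω`, uniformly for all
members. -/
theorem result :
    ∀ (ν : Measure (ℕ → Bool)) [IsProbabilityMeasure ν], SmallInformation ν →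
      ∀ (ι : Type) (T : ι → ℝ) (a : ι → ℕ → ℝ) (A : ℝ), (∀ i, 1 ≤ T i) →
        (∀ X : ℝ, 1 ≤ X → {i | T i ≤ X}.Finite ∧ ({i | T i ≤ X}.ncard : ℝ) ≤ A * X ^ A) →
        (∀ ε : ℝ, 0 < ε → ∃ C : ℝ, ∀ (i : ι) (N : ℕ), 1 ≤ N →
          ∑ n ∈ Icc 1 N, a i n ^ 8 ≤ C * ((N : ℝ) * T i) ^ ε * N) →
        (∀ ε : ℝ, 0 < ε → ∃ C : ℝ, ∀ (i : ι) (R S : ℕ), 1 ≤ R → 1 ≤ S →
          ∑ s ∈ (Icc 1 S).filter Squarefree, ∑ r ∈ Icc 1 R, a i (r ^ 2 * s) ^ 4 ≤
            C * ((R : ℝ) * S * T i) ^ ε * (R * S)) →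
        ∀ᵐ ω ∂ν, ∀ ω' : ℕ → Bool, {k | ω' k ≠ ω k}.Finite →
          ∀ Ω : Set ℂ, IsCompact Ω → (∀ z ∈ Ω, 0 < z.im) →
            ∀ ε : ℝ, 0 < ε → ∃ C : ℝ, ∀ (i : ι), ∀ z ∈ Ω,
              |evenPart (T i) (a i) (f ω') z| ≤ C * T i ^ ε ∧ |oddPart (T i) (a i) (f ω') z| ≤ C * T i ^ ε := by
  intro ν _ hν ι T a A hT hfin h8 h4
  refine Pool.Agent.Q255.L2.ae_fin0 (fun ν' _ hν' => ?_) ν ((small_iff ν).1 hν)
  filter_upwards [sn ν' hν' ι T a A ⟨hT, hfin⟩ ⟨h8, h4⟩] with ω hω Ω hΩ hpos ε hε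
  rcases Ω.eq_empty_or_nonempty with h0 | h0
  · subst h0
    exact ⟨0, fun i z hz => absurd hz (Set.notMem_empty z)⟩
  obtain ⟨z₀, hz₀, h1⟩ := hΩ.exists_isMinOn h0 Complex.continuous_im.continuousOn
  obtain ⟨z₁, hz₁, h2⟩ := hΩ.exists_isMaxOn h0 Complex.continuous_im.continuousOn
  have h01 : z₀.im ≤ z₁.im := h1 hz₁
  obtain ⟨C, hC⟩ := hω z₀.im z₁.im (hpos z₀ hz₀) h01 ε hε
  exact ⟨C, fun i z hz => hC i z.re z.im (h1 hz) (h2 hz)⟩

end Pool.Agent.Results.MP_8fded1_nt.SupNormRandomTwistsSharp
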