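import Pool.Agent.Results.MP_8fded1_nt.QuadraticTwists
import Pool.Agent.Q138.PS.XD

/-!
# The sup norm of the twists of all Hecke-Maass forms by the primes near `c n ^ j α ^ n`

Let `(T_i, a_i)` be any family of numbers `T_i ≥ 1` and sequences of real coefficients, at most `A X^A` members with
`T_i ≤ X`, with `∑_{n ≤ N} a_i(n)^8 ≤ C (N T_i)^ε N` and
`∑_{s ≤ S squarefree} ∑_{r ≤ R} a_i(r² s)^4 ≤ C (R S T_i)^ε R S` for every `ε > 0` (both are known for all Hecke-Maass forms of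
`SL₂(ℤ)`). For a compact subset `Ω` of the upper half plane and `ε > 0` the expansions
`e^{πT/2} √y ∑ a_i(n) (n/p) K_{iT}(2πny) cos(2πnx)` and the same with `sin`, `T = T_i`, are at most `A₀ T_i^ε` on `Ω` for ALL odd primes `p`
close to the numbers `c n ^ j α ^ n` and all members of the family with `p ^ η ≤ T_i` and `(2 T_i) ^ K ≤ p`, for all `α > 1` outside a set of
Hausdorff dimension at most `(1 - η B) / (1 - l)`. Here `B` is arbitrary, `K` depends on `B` and `η` is as small as we please.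

Input: the count of the exceptional primes in `QuadraticTwists` (helper255 and others).
-/

set_option autoImplicit false

namespace Pool.Agent.Results.MP_8fded1_nt.TwistsNearPowers

open Finset Filter
open Pool.Agent.Q138.PS (NearPow)
open Pool.Agent.Results.MP_8fded1_nt.QuadraticTwists (chi evenPart oddPart)

/-- **Theorem.** -/
theorem result :
    ∀ (ι : Type) (T : ι → ℝ) (a : ι → ℕ → ℝ) (A : ℝ), (∀ i, 1 ≤ T i) →
      (∀ X : ℝ, 1 ≤ X → {i | T i ≤ X}.Finite ∧ ({i | T i ≤ X}.ncard : ℝ) ≤ A * X ^ A) →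
      (∀ ε : ℝ, 0 < ε → ∃ C : ℝ, ∀ (i : ι) (N : ℕ), 1 ≤ N →
        ∑ n ∈ Icc 1 N, a i n ^ 8 ≤ C * ((N : ℝ) * T i) ^ ε * N) →
      (∀ ε : ℝ, 0 < ε → ∃ C : ℝ, ∀ (i : ι) (R S : ℕ), 1 ≤ R → 1 ≤ S →
        ∑ s ∈ (Icc 1 S).filter Squarefree, ∑ r ∈ Icc 1 R, a i (r ^ 2 * s) ^ 4 ≤
          C * ((R : ℝ) * S * T i) ^ ε * (R * S)) →
      ∀ Ω : Set ℂ, IsCompact Ω → (∀ z ∈ Ω, 0 < z.im) → ∀ ε : ℝ, 0 < ε →
        ∃ A₀ : ℝ, ∀ B : ℝ, 0 ≤ B → ∃ K₀ : ℕ, ∀ η l : ℝ, 0 < η → η * B < 1 → l < 1 →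
          ∃ Z : Set ℝ, dimH Z ≤ ENNReal.ofReal ((1 - η * B) / (1 - l)) ∧ ∀ α : ℝ, 1 < α → α ∉ Z →
            ∀ c : ℝ, 0 < c → IsAlgebraic ℚ c → ∀ (j : ℤ) (D : ℝ), ∀ᶠ n : ℕ in atTop,
              ∀ p : ℕ, p.Prime → p ≠ 2 → NearPow α c j D l n p → ∀ i, (p : ℝ) ^ η ≤ T i → (2 * T i) ^ K₀ ≤ p →
                ∀ z ∈ Ω, |evenPart (T i) (a i) (chi p) z| ≤ A₀ * T i ^ ε ∧ |oddPart (T i) (a i) (chi p) z| ≤ A₀ * T i ^ ε := by
  intro ι T a A hT hfin h8 h4 Ω hΩ hpos ε hε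
  obtain ⟨A₀, hA₀⟩ := Pool.Agent.Results.MP_8fded1_nt.QuadraticTwists.result ι T a A hT hfin h8 h4 Ω hΩ hpos ε hε
  refine ⟨A₀, fun B hB => ?_⟩
  obtain ⟨K₀, C, hC⟩ := hA₀ B hB
  refine ⟨K₀, fun η l hη hηB hl => ?_⟩
  obtain ⟨Bad, hBad⟩ : ∃ Bad : Set ℕ, Bad = {p : ℕ | p.Prime ∧ p ≠ 2 ∧ ∃ i, (p : ℝ) ^ η ≤ T i ∧ (2 * T i) ^ K₀ ≤ p ∧ ∃ z ∈ Ω,
            A₀ * T i ^ ε < |evenPart (T i) (a i) (chi p) z| ∨
            A₀ * T i ^ ε < |oddPart (T i) (a i) (chi p) z|} := ⟨_, rfl⟩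
  obtain ⟨C', hC'⟩ := Pool.Agent.Q138.PS.count_halves Bad (1 - η * B) (|C| * 2 ^ (η * B)) (by linarith) (fun P hP => by
    have hP1 : (1 : ℝ) ≤ P := by exact_mod_cast hP
    have hP0 : (0 : ℝ) < P := by linarith
    have hηB0 : 0 ≤ η * B := by positivity
    rcases Nat.lt_or_ge P 2 with h2 | h2
    · have h0 : {m | m ∈ Bad ∧ m ≤ P ∧ P ≤ 2 * m} = ∅ := by
        rw [Set.eq_empty_iff_forall_notMem]
        rintro m ⟨h3, h4, h5⟩
        rw [hBad] at h3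
        have := h3.1.two_le
        omega
      rw [h0, Set.ncard_empty, Nat.cast_zero]
      positivity
    · have hP2 : (2 : ℝ) ≤ P := by exact_mod_cast h2
      have hZ : (1 : ℝ) ≤ ((P : ℝ) / 2) ^ η := Real.one_le_rpow (by linarith) hη.le
      have h3 := hC P (((P : ℝ) / 2) ^ η) hZ
      have hsub : {m | m ∈ Bad ∧ m ≤ P ∧ P ≤ 2 * m} ⊆ {p : ℕ | p ≤ P ∧ p.Prime ∧ p ≠ 2 ∧ ∃ i, ((P : ℝ) / 2) ^ η ≤ T i ∧
          (2 * T i) ^ K₀ ≤ P ∧ ∃ z ∈ Ω,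
            A₀ * T i ^ ε < |evenPart (T i) (a i) (chi p) z| ∨
            A₀ * T i ^ ε < |oddPart (T i) (a i) (chi p) z|} := by
        rintro m ⟨h4, h5, h6⟩
        rw [hBad] at h4
        obtain ⟨h7, h8, i, h9, h10, h11⟩ := h4
        have h12 : (P : ℝ) / 2 ≤ m := by
          have : (P : ℝ) ≤ 2 * m := by exact_mod_cast h6
          linarith
        have h13 : (m : ℝ) ≤ P := by exact_mod_cast h5
        exact ⟨h5, h7, h8, i, (Real.rpow_le_rpow (by positivity) h12 hη.le).trans h9, h10.trans h13, h11⟩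
      have h4 : (({m | m ∈ Bad ∧ m ≤ P ∧ P ≤ 2 * m}).ncard : ℝ) ≤ C * P * (((P : ℝ) / 2) ^ η) ^ (-B) := by
        refine le_trans ?_ h3
        exact_mod_cast Set.ncard_le_ncard hsub ((Set.finite_le_nat P).subset fun p hp => hp.1)
      have h5 : (((P : ℝ) / 2) ^ η) ^ (-B) = 2 ^ (η * B) * (P : ℝ) ^ (-(η * B)) := by
        rw [← Real.rpow_mul (by positivity), Real.div_rpow hP0.le (by norm_num), show η * -B = -(η * B) by ring,
          Real.rpow_neg (by norm_num : (0 : ℝ) ≤ 2), div_inv_eq_mul, mul_comm]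
      rw [h5] at h4
      refine h4.trans ?_
      have h6 : (P : ℝ) ^ (1 - η * B) = P * (P : ℝ) ^ (-(η * B)) := by
        rw [sub_eq_add_neg, Real.rpow_add hP0, Real.rpow_one]
      rw [h6]
      have h7 : C * P * (2 ^ (η * B) * (P : ℝ) ^ (-(η * B))) = C * (2 ^ (η * B) * (P * (P : ℝ) ^ (-(η * B)))) := by ring
      have h8 : |C| * 2 ^ (η * B) * (P * (P : ℝ) ^ (-(η * B))) = |C| * (2 ^ (η * B) * (P * (P : ℝ) ^ (-(η * B)))) := by ring
      rw [h7, h8]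
      exact mul_le_mul_of_nonneg_right (le_abs_self C) (by positivity))
  obtain ⟨Z, hZ, hg⟩ := Pool.Agent.Q138.PS.pow_alg_one Bad (1 - η * B) l (by linarith) hl (fun δ hδ => by
    refine ⟨|C'|, fun X hX => (hC' X hX).trans ?_⟩
    have h1 : X ^ (1 - η * B) ≤ X ^ (1 - η * B + δ) := Real.rpow_le_rpow_of_exponent_le hX (by linarith)
    have h2 : 0 ≤ X ^ (1 - η * B) := by positivity
    calc C' * X ^ (1 - η * B) ≤ |C'| * X ^ (1 - η * B) := mul_le_mul_of_nonneg_right (le_abs_self _) h2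
      _ ≤ |C'| * X ^ (1 - η * B + δ) := mul_le_mul_of_nonneg_left h1 (abs_nonneg _))
  refine ⟨Z, hZ, fun α hα hαZ c hc hca j D => ?_⟩
  filter_upwards [hg α hα hαZ c hc hca j D] with n hn p hp hp2 hnear i hTi hTK z hz
  by_contra hcon
  apply hn p hnear
  rw [hBad]
  refine ⟨hp, hp2, i, hTi, hTK, z, hz, ?_⟩
  by_contra h1
  push Not at h1
  exact hcon h1

end Pool.Agent.Results.MP_8fded1_nt.TwistsNearPowers
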